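import Pool.Agent.H71.TSG.M27

/-!
# Flag homology balls and spheres over the field of two elements

`HomologyBall2 G n`: the flag complex of `G` is a homology ball or a homology sphere of dimension `n - 1` over the
field of two elements.
-/

set_option autoImplicit false
set_option linter.unusedSectionVars false

open Finset

namespace Pool.Agent.H3.SL

open Pool.Agent.H19.SR

variable {V : Type} [DecidableEq V] [Fintype V]

/-- The flag complex of `G` is a homology ball or a homology sphere of dimension `n - 1` over the field of two
elements: for every clique `ρ` (also for `ρ = ∅`) the reduced homology over the field of two elements of the link of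
`ρ` vanishes in the degrees less than `n - 1 - |ρ|`, and has at most two elements in the degree `n - 1 - |ρ|` (the
cliques for which it vanishes form the boundary). -/
structure HomologyBall2 (G : SimpleGraph V) (n : ℕ) : Prop where
  dim : ∀ σ : Finset V, G.IsClique (σ : Set V) → σ.card ≤ n
  low : ∀ ρ : Finset V, G.IsClique (ρ : Set V) → ∀ j, j + ρ.card < n → ∀ z, LinkCh2 G ρ j z →
    bdy2 z = 0 → ∃ y, LinkCh2 G ρ (j + 1) y ∧ bdy2 y = z
  top : ∀ ρ : Finset V, G.IsClique (ρ : Set V) → ∀ j, j + ρ.card = n →
    ∃ o, ∀ z, LinkCh2 G ρ j z → bdy2 z = 0 → z = 0 ∨ z = o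

section aux

end aux

end Pool.Agent.H3.SL
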